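import Pool.Agent.RLB.Final

/-!
# MP_247733_lc : randomization beats `2 - 1/n` for online load balancing of temporary tasks

For `n = 2 ^ N` identical machines, `N` large, there is a randomized online algorithm that is
`(2 - 1/n - ε)`-competitive against oblivious adversaries, for some `ε > 0`.
-/

namespace Pool.Agent.Results.MP_247733_lc.RandBeatsGreedy

open RLB

theorem result : ∃ N₁ : ℕ, ∀ N : ℕ, N₁ ≤ N → ∀ n : ℕ, n = 2 ^ N → ∀ [NeZero n],
    3 ≤ n ∧ ∃ ε : ℝ, 0 < ε ∧ ∃ A : RandAlg n, Competitive A (2 - 1 / (n : ℝ) - ε) := by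
  obtain ⟨N₁, h⟩ := main
  refine ⟨max N₁ 2, fun N hN n hn _ => ⟨?_, ?_⟩⟩
  · rw [hn]
    calc 3 ≤ 2 ^ 2 := by norm_num
      _ ≤ 2 ^ N := Nat.pow_le_pow_right (by norm_num) (by omega)
  · obtain ⟨h1, h2⟩ := h N (by omega) n hn
    exact ⟨_, h2, alg n, h1⟩

end Pool.Agent.Results.MP_247733_lc.RandBeatsGreedy
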